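import Pool.Agent.Q147.HL.Main

/-!
# The partition numbers vary slowly
-/

set_option autoImplicit false

namespace Pool.Agent.Q147.HL

/-- the integers of weight `t` -/
noncomputable def P (t : ℕ) : Finset ℕ := (finite_wt t).toFinset

theorem mem_P {t n : ℕ} : n ∈ P t ↔ n ≠ 0 ∧ wt n = t := by
  rw [P, Set.Finite.mem_toFinset]
  rfl

theorem card_P (t : ℕ) : (P t).card = Fintype.card (Nat.Partition t) := by
  rw [← card_wt, Set.ncard_eq_toFinset_card _ (finite_wt t)]
  rfl

theorem wt_two_pow (k : ℕ) : wt (2 ^ k) = k := by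
  rw [wt_pow Nat.prime_two, pc_prime Nat.prime_two]
  have : Nat.count Nat.Prime 2 = 0 := by decide
  rw [this]
  omega

theorem pc_inj {p q : ℕ} (hp : p.Prime) (hq : q.Prime)
    (h : Nat.primeCounting p = Nat.primeCounting q) : p = q := by
  rw [← nth_pc hp, ← nth_pc hq, h]

/-- the odd integers of weight `t` -/
noncomputable def O (t : ℕ) : Finset ℕ := (P t).filter (fun n => ¬ 2 ∣ n)

theorem mem_O {t n : ℕ} : n ∈ O t ↔ (n ≠ 0 ∧ wt n = t) ∧ ¬ 2 ∣ n := by
  rw [O, Finset.mem_filter, mem_P]

theorem card_succ (t : ℕ) : (P (t + 1)).card = (P t).card + (O (t + 1)).card := by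
  rw [← Finset.card_filter_add_card_filter_not (s := P (t + 1)) (p := fun n => 2 ∣ n)]
  congr 1
  symm
  refine Finset.card_bij (fun n _ => 2 * n) ?_ ?_ ?_
  · intro n hn
    obtain ⟨h0, h1⟩ := mem_P.1 hn
    refine Finset.mem_filter.2 ⟨mem_P.2 ⟨by omega, ?_⟩, dvd_mul_right _ _⟩
    rw [wt_mul (by norm_num) h0, h1]
    have := wt_two_pow 1
    rw [pow_one] at this
    omega
  · intro a _ b _ hab
    have hab : 2 * a = 2 * b := hab
    omega
  · intro n hn
    obtain ⟨hn, m, rfl⟩ := Finset.mem_filter.1 hn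
    obtain ⟨h0, h1⟩ := mem_P.1 hn
    have hm : m ≠ 0 := by omega
    refine ⟨m, mem_P.2 ⟨hm, ?_⟩, rfl⟩
    rw [wt_mul (by norm_num) hm] at h1
    have := wt_two_pow 1
    rw [pow_one] at this
    omega

/-- odd integers with many prime factors -/
theorem many (t k : ℕ) : k * ((O t).filter (fun n => k ≤ n.primeFactors.card)).card ≤ (P t).card := by
  classical
  set S := (O t).filter (fun n => k ≤ n.primeFactors.card) with hS
  have h1 : k * S.card ≤ (S.sigma (fun n => n.primeFactors)).card := by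
    rw [Finset.card_sigma, mul_comm, ← smul_eq_mul, ← Finset.sum_const]
    refine Finset.sum_le_sum fun n hn => ?_
    exact (Finset.mem_filter.1 hn).2
  refine h1.trans ?_
  refine Finset.card_le_card_of_injOn
    (fun z : (Σ _ : ℕ, ℕ) => z.1 / z.2 * 2 ^ Nat.primeCounting z.2) ?_ ?_
  · rintro ⟨n, p⟩ hz
    obtain ⟨hn, hp⟩ := Finset.mem_sigma.1 (Finset.mem_coe.1 hz)
    have hn := mem_O.1 (Finset.mem_filter.1 hn).1
    have hp := Nat.mem_primeFactors.1 hp
    obtain ⟨c, hc⟩ := hp.2.1
    have hp1 : Nat.Prime p := hp.1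
    have hc : n = p * c := hc
    have hc0 : c ≠ 0 := by
      rintro rfl
      rw [mul_zero] at hc
      exact hn.1.1 hc
    refine Finset.mem_coe.2 (mem_P.2 ?_)
    change n / p * 2 ^ Nat.primeCounting p ≠ 0 ∧ wt (n / p * 2 ^ Nat.primeCounting p) = t
    rw [hc, Nat.mul_div_cancel_left _ hp1.pos]
    refine ⟨Nat.mul_ne_zero hc0 (by positivity), ?_⟩
    rw [wt_mul hc0 (by positivity), wt_two_pow]
    have h2 := hn.1.2
    change wt n = t at h2
    rw [hc, wt_mul hp1.ne_zero hc0] at h2
    have h3 := wt_pow hp1 1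
    rw [pow_one, one_mul] at h3
    omega
  · rintro ⟨n, p⟩ hz ⟨n', p'⟩ hz' heq
    obtain ⟨hn, hp⟩ := Finset.mem_sigma.1 (Finset.mem_coe.1 hz)
    obtain ⟨hn', hp'⟩ := Finset.mem_sigma.1 (Finset.mem_coe.1 hz')
    have hn := mem_O.1 (Finset.mem_filter.1 hn).1
    have hn' := mem_O.1 (Finset.mem_filter.1 hn').1
    have hp := Nat.mem_primeFactors.1 hp
    have hp' := Nat.mem_primeFactors.1 hp'
    obtain ⟨c, hc⟩ := hp.2.1
    obtain ⟨c', hc'⟩ := hp'.2.1
    have hp1 : Nat.Prime p := hp.1
    have hp1' : Nat.Prime p' := hp'.1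
    have hc : n = p * c := hc
    have hc' : n' = p' * c' := hc'
    have ho : ¬ 2 ∣ n := hn.2
    have ho' : ¬ 2 ∣ n' := hn'.2
    have heq : n / p * 2 ^ Nat.primeCounting p = n' / p' * 2 ^ Nat.primeCounting p' := heq
    rw [hc, hc', Nat.mul_div_cancel_left _ hp1.pos, Nat.mul_div_cancel_left _ hp1'.pos] at heq
    have hco : ¬ 2 ∣ c := fun h => ho (hc ▸ h.mul_left p)
    have hco' : ¬ 2 ∣ c' := fun h => ho' (hc' ▸ h.mul_left p')
    have hi : Nat.primeCounting p = Nat.primeCounting p' := by
      have key : ∀ (a b i j : ℕ), ¬ 2 ∣ a → ¬ 2 ∣ b → a * 2 ^ i = b * 2 ^ j → i ≤ j → i = j := by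
        intro a b i j ha hb hab hij
        obtain ⟨d, rfl⟩ := Nat.exists_eq_add_of_le hij
        rw [pow_add, mul_comm (2 ^ i), ← mul_assoc] at hab
        have hab := Nat.eq_of_mul_eq_mul_right (by positivity) hab
        rcases Nat.eq_zero_or_pos d with rfl | hd
        · rfl
        · exfalso
          apply ha
          rw [hab]
          exact (dvd_pow_self 2 (by omega)).mul_left b
      rcases le_total (Nat.primeCounting p) (Nat.primeCounting p') with h | h
      · exact key _ _ _ _ hco hco' heq h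
      · exact (key _ _ _ _ hco' hco heq.symm h).symm
    have hpp : p = p' := pc_inj hp1 hp1' hi
    rw [hi] at heq
    have hcc := Nat.eq_of_mul_eq_mul_right (by positivity) heq
    have hnn : n = n' := by rw [hc, hc', hpp, hcc]
    subst hnn hpp
    rfl

/-- products of `k` prime powers -/
noncomputable def pp (k t : ℕ) (g : Fin k → Fin (t + 1) × Fin (t + 1)) : ℕ :=
  ∏ i, Nat.nth Nat.Prime ((g i).1 : ℕ) ^ ((g i).2 : ℕ)

theorem pf_erase (n p : ℕ) :
    (n / p ^ n.factorization p).primeFactors = n.primeFactors.erase p := by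
  rw [← Nat.support_factorization, Nat.factorization_ordCompl, Finsupp.support_erase,
    Nat.support_factorization]

theorem in_range (t : ℕ) : ∀ (k n : ℕ), n ≠ 0 → n.primeFactors.card ≤ k →
    (∀ p ∈ n.primeFactors, Nat.primeCounting p ≤ t + 1) → (∀ p, n.factorization p ≤ t) →
    ∃ g, pp k t g = n := by
  intro k
  induction k with
  | zero =>
    intro n h0 hk _ _
    have h1 : n.primeFactors = ∅ := Finset.card_eq_zero.1 (by omega)
    rw [Nat.primeFactors_eq_empty] at h1
    refine ⟨fun i => i.elim0, ?_⟩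
    rw [pp, Finset.univ_eq_empty, Finset.prod_empty]
    omega
  | succ k ih =>
    intro n h0 hk hi he
    rcases n.primeFactors.eq_empty_or_nonempty with h1 | ⟨p, hp⟩
    · rw [Nat.primeFactors_eq_empty] at h1
      refine ⟨fun _ => (0, 0), ?_⟩
      rw [pp]
      simp
      omega
    · have hpp := Nat.prime_of_mem_primeFactors hp
      obtain ⟨g, hg⟩ := ih (n / p ^ n.factorization p) (by
          exact (Nat.div_pos (Nat.le_of_dvd (Nat.pos_of_ne_zero h0) (Nat.ordProj_dvd n p))
            (pow_pos hpp.pos _)).ne') (by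
          rw [pf_erase, Finset.card_erase_of_mem hp]
          omega) (by
          intro q hq
          rw [pf_erase] at hq
          exact hi q (Finset.mem_of_mem_erase hq)) (by
          intro q
          refine le_trans ?_ (he q)
          exact (Nat.factorization_le_iff_dvd (by
            exact (Nat.div_pos (Nat.le_of_dvd (Nat.pos_of_ne_zero h0) (Nat.ordProj_dvd n p))
            (pow_pos hpp.pos _)).ne') h0).2 (Nat.ordCompl_dvd n p) q)
      have hpi := hi p hp
      have hpe := he p
      refine ⟨Fin.cons (⟨Nat.primeCounting p - 1, by omega⟩, ⟨n.factorization p, by omega⟩) g, ?_⟩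
      rw [pp, Fin.prod_univ_succ]
      simp only [Fin.cons_zero, Fin.cons_succ]
      rw [pp] at hg
      rw [hg, nth_pc hpp]
      exact Nat.ordProj_mul_ordCompl_eq_self n p

theorem pc_le_wt {n p : ℕ} (hp : p ∈ n.primeFactorsList) : Nat.primeCounting p ≤ wt n := by
  rw [wt]
  exact List.single_le_sum (by simp) _ (List.mem_map_of_mem hp)

theorem fac_le_wt {n : ℕ} (h0 : n ≠ 0) (p : ℕ) : n.factorization p ≤ wt n := by
  rcases em (p.Prime) with hp | hp
  · obtain ⟨c, hc⟩ := Nat.ordProj_dvd n p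
    have hc0 : c ≠ 0 := by
      rintro rfl
      rw [mul_zero] at hc
      exact h0 hc
    have h1 : wt n = n.factorization p * Nat.primeCounting p + wt c := by
      conv_lhs => rw [hc]
      rw [wt_mul (pow_ne_zero _ hp.ne_zero) hc0, wt_pow hp]
    have h2 : 1 ≤ Nat.primeCounting p := by
      rw [pc_prime hp]
      omega
    nlinarith
  · rw [Nat.factorization_eq_zero_of_not_prime _ hp]
    omega

theorem few (t k : ℕ) : ((O t).filter (fun n => ¬ k ≤ n.primeFactors.card)).card ≤
    ((t + 1) * (t + 1)) ^ k := by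
  classical
  have h1 : (O t).filter (fun n => ¬ k ≤ n.primeFactors.card) ⊆
      Finset.univ.image (pp k t) := by
    intro n hn
    obtain ⟨hn, hk⟩ := Finset.mem_filter.1 hn
    obtain ⟨⟨h0, h1⟩, _⟩ := mem_O.1 hn
    obtain ⟨g, hg⟩ := in_range t k n h0 (by omega) (by
      intro p hp
      have := pc_le_wt (Nat.mem_primeFactors_iff_mem_primeFactorsList.1 hp)
      omega) (fun p => by
      have := fac_le_wt h0 p
      omega)
    exact Finset.mem_image.2 ⟨g, Finset.mem_univ _, hg⟩
  refine (Finset.card_le_card h1).trans (Finset.card_image_le.trans ?_)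
  rw [Finset.card_univ, Fintype.card_fun, Fintype.card_prod, Fintype.card_fin, Fintype.card_fin]


theorem O_le (t k : ℕ) : k * (O t).card ≤ (P t).card + k * ((t + 1) * (t + 1)) ^ k := by
  rw [← Finset.card_filter_add_card_filter_not (s := O t) (p := fun n => k ≤ n.primeFactors.card)]
  have h1 := many t k
  have h2 := Nat.mul_le_mul_left k (few t k)
  rw [mul_add]
  omega

/-! ### the partition numbers grow faster than every power -/

/-- products of powers of the primes with indices `2, ..., k + 1` -/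
noncomputable def od (k M : ℕ) (g : Fin k → Fin (M + 1)) : ℕ :=
  ∏ i : Fin k, Nat.nth Nat.Prime ((i : ℕ) + 1) ^ ((g i : ℕ))

theorem fac_od (k M : ℕ) (g : Fin k → Fin (M + 1)) (j : Fin k) :
    (od k M g).factorization (Nat.nth Nat.Prime ((j : ℕ) + 1)) = g j := by
  rw [od, Nat.factorization_prod (fun i _ => pow_ne_zero _ (Nat.prime_nth_prime _).ne_zero)]
  rw [Finsupp.finsetSum_apply, Finset.sum_eq_single j]
  · rw [Nat.Prime.factorization_pow (Nat.prime_nth_prime _), Finsupp.single_eq_same]
  · intro i _ hij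
    rw [Nat.Prime.factorization_pow (Nat.prime_nth_prime _), Finsupp.single_eq_of_ne]
    intro h
    apply hij
    have h1 := Nat.nth_injective Nat.infinite_setOfPred_prime h
    exact Fin.ext (by omega)
  · intro h
    exact absurd (Finset.mem_univ _) h

theorem od_ne (k M : ℕ) (g : Fin k → Fin (M + 1)) : od k M g ≠ 0 := by
  rw [od, Finset.prod_ne_zero_iff]
  exact fun i _ => pow_ne_zero _ (Nat.prime_nth_prime _).ne_zero

theorem od_odd (k M : ℕ) (g : Fin k → Fin (M + 1)) : ¬ 2 ∣ od k M g := by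
  rw [od, Nat.prime_two.prime.dvd_finsetProd_iff]
  rintro ⟨i, _, h⟩
  have h1 := Nat.prime_two.dvd_of_dvd_pow h
  rw [Nat.prime_dvd_prime_iff_eq Nat.prime_two (Nat.prime_nth_prime _)] at h1
  have h2 := congrArg Nat.primeCounting h1
  have h3 := pc_nth (i := (i : ℕ) + 2) (by omega)
  rw [show (i : ℕ) + 2 - 1 = (i : ℕ) + 1 by omega] at h3
  rw [h3, pc_prime Nat.prime_two] at h2
  have : Nat.count Nat.Prime 2 = 0 := by decide
  omega

theorem wt_prod {ι : Type*} (s : Finset ι) (f : ι → ℕ) (hf : ∀ i ∈ s, f i ≠ 0) :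
    wt (∏ i ∈ s, f i) = ∑ i ∈ s, wt (f i) := by
  classical
  induction s using Finset.induction_on with
  | empty => rw [Finset.prod_empty, Finset.sum_empty, wt_one]
  | insert a s ha ih =>
    rw [Finset.prod_insert ha, Finset.sum_insert ha, wt_mul (hf a (Finset.mem_insert_self _ _)),
      ih fun i hi => hf i (Finset.mem_insert_of_mem hi)]
    rw [Finset.prod_ne_zero_iff]
    exact fun i hi => hf i (Finset.mem_insert_of_mem hi)

theorem wt_od (k M : ℕ) (g : Fin k → Fin (M + 1)) : wt (od k M g) ≤ k * (M * (k + 1)) := by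
  rw [od, wt_prod _ _ (fun i _ => pow_ne_zero _ (Nat.prime_nth_prime _).ne_zero)]
  calc ∑ i : Fin k, wt (Nat.nth Nat.Prime ((i : ℕ) + 1) ^ ((g i : ℕ)))
      ≤ ∑ i : Fin k, M * (k + 1) := by
        refine Finset.sum_le_sum fun i _ => ?_
        rw [wt_pow (Nat.prime_nth_prime _)]
        have h3 := pc_nth (i := (i : ℕ) + 2) (by omega)
        rw [show (i : ℕ) + 2 - 1 = (i : ℕ) + 1 by omega] at h3
        rw [h3]
        have h4 := (g i).2
        have h5 := i.2
        exact Nat.mul_le_mul (by omega) (by omega)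
    _ = k * (M * (k + 1)) := by
        rw [Finset.sum_const, Finset.card_univ, Fintype.card_fin, smul_eq_mul]

theorem P_ge (t k M : ℕ) (h : k * (M * (k + 1)) ≤ t) : (M + 1) ^ k ≤ (P t).card := by
  have h1 : (M + 1) ^ k = (Finset.univ : Finset (Fin k → Fin (M + 1))).card := by
    rw [Finset.card_univ, Fintype.card_fun, Fintype.card_fin, Fintype.card_fin]
  rw [h1]
  refine Finset.card_le_card_of_injOn (fun g => od k M g * 2 ^ (t - wt (od k M g))) ?_ ?_
  · intro g _
    refine Finset.mem_coe.2 (mem_P.2 ⟨Nat.mul_ne_zero (od_ne k M g) (by positivity), ?_⟩)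
    change wt (od k M g * 2 ^ (t - wt (od k M g))) = t
    rw [wt_mul (od_ne k M g) (by positivity), wt_two_pow]
    have := wt_od k M g
    omega
  · intro g _ g' _ heq
    have heq : od k M g * 2 ^ (t - wt (od k M g)) = od k M g' * 2 ^ (t - wt (od k M g')) := heq
    funext j
    have h2 := congrArg (fun n : ℕ => n.factorization (Nat.nth Nat.Prime ((j : ℕ) + 1))) heq
    have h3 : ∀ e : ℕ, (2 ^ e : ℕ).factorization (Nat.nth Nat.Prime ((j : ℕ) + 1)) = 0 := by
      intro e
      rw [Nat.Prime.factorization_pow Nat.prime_two, Finsupp.single_eq_of_ne]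
      intro h
      have h1 := congrArg Nat.primeCounting h
      have h3 := pc_nth (i := (j : ℕ) + 2) (by omega)
      rw [show (j : ℕ) + 2 - 1 = (j : ℕ) + 1 by omega] at h3
      rw [h3, pc_prime Nat.prime_two] at h1
      have : Nat.count Nat.Prime 2 = 0 := by decide
      omega
    change (od k M g * 2 ^ (t - wt (od k M g))).factorization _ =
      (od k M g' * 2 ^ (t - wt (od k M g'))).factorization _ at h2
    rw [Nat.factorization_mul (od_ne k M g) (by positivity),
      Nat.factorization_mul (od_ne k M g') (by positivity), Finsupp.add_apply, Finsupp.add_apply,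
      h3, h3, fac_od, fac_od] at h2
    exact Fin.ext (by omega)

theorem P_big (K : ℕ) : ∃ t₁, ∀ t, t₁ ≤ t → K * ((t + 1) * (t + 1)) ^ K ≤ (P t).card := by
  set k := 2 * K + 1 with hk
  set c := k * (k + 1) with hc
  have hc1 : 0 < c := by positivity
  refine ⟨K * c ^ k, fun t ht => ?_⟩
  have h1 := P_ge t k (t / c) (by
    calc k * (t / c * (k + 1)) = c * (t / c) := by rw [hc]; ring
      _ ≤ t := Nat.mul_div_le t c)
  have h2 : t + 1 ≤ c * (t / c + 1) := by
    have h41 := Nat.div_add_mod t c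
    have h42 := Nat.mod_lt t hc1
    nlinarith
  have h3 : (t + 1) ^ k ≤ c ^ k * (P t).card := by
    calc (t + 1) ^ k ≤ (c * (t / c + 1)) ^ k := Nat.pow_le_pow_left h2 k
      _ = c ^ k * (t / c + 1) ^ k := Nat.mul_pow _ _ _
      _ ≤ c ^ k * (P t).card := Nat.mul_le_mul_left _ h1
  have h4 : c ^ k * (K * ((t + 1) * (t + 1)) ^ K) ≤ c ^ k * (P t).card := by
    calc c ^ k * (K * ((t + 1) * (t + 1)) ^ K) = (K * c ^ k) * (t + 1) ^ (2 * K) := by
          rw [← pow_two, ← pow_mul]
          ring
      _ ≤ (t + 1) * (t + 1) ^ (2 * K) := Nat.mul_le_mul_right _ (by omega)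
      _ = (t + 1) ^ k := by rw [hk, pow_succ, mul_comm]
      _ ≤ _ := h3
  exact Nat.le_of_mul_le_mul_left h4 (by positivity)

/-- `p t / (p 0 + ... + p t)` tends to zero -/
theorem slow (k : ℕ) : ∃ t₀, ∀ t, t₀ ≤ t →
    k * Fintype.card (Nat.Partition t) ≤ ∑ s ∈ Finset.range (t + 1), Fintype.card (Nat.Partition s) := by
  rcases Nat.eq_zero_or_pos k with rfl | hk
  · exact ⟨0, fun t _ => by simp⟩
  set K := 8 * k with hK
  obtain ⟨t₁, ht₁⟩ := P_big K
  have hstep : ∀ t, t₁ ≤ t + 1 → K * (P (t + 1)).card ≤ K * (P t).card + 2 * (P (t + 1)).card := by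
    intro t ht
    have h1 := O_le (t + 1) K
    have h2 := ht₁ (t + 1) ht
    rw [card_succ] at h1 h2 ⊢
    nlinarith
  have hj : ∀ j t, t₁ ≤ t → K * (P (t + j)).card ≤ K * (P t).card + 2 * j * (P (t + j)).card := by
    intro j
    induction j with
    | zero => intro t _; simp
    | succ j ih =>
      intro t ht
      have h1 := hstep (t + j) (by omega)
      have h2 := ih t ht
      have h3 : (P (t + j)).card ≤ (P (t + j + 1)).card := by
        rw [card_succ]
        omega
      rw [← add_assoc]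
      nlinarith
  refine ⟨t₁ + 2 * k, fun t ht => ?_⟩
  rw [← card_P]
  have h1 : ∑ s ∈ Finset.Ioc (t - 2 * k) t, (P s).card ≤
      ∑ s ∈ Finset.range (t + 1), Fintype.card (Nat.Partition s) := by
    rw [← Finset.sum_congr rfl (fun s _ => card_P s)]
    apply Finset.sum_le_sum_of_subset
    intro s hs
    have := Finset.mem_Ioc.1 hs
    rw [Finset.mem_range]
    omega
  refine le_trans ?_ h1
  have h2 : ∀ s ∈ Finset.Ioc (t - 2 * k) t, (P t).card ≤ 2 * (P s).card := by
    intro s hs
    obtain ⟨hs1, hs2⟩ := Finset.mem_Ioc.1 hs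
    have h3 := hj (t - s) s (by omega)
    rw [show s + (t - s) = t by omega] at h3
    have h4 : 2 * (t - s) * (P t).card ≤ (4 * k) * (P t).card :=
      Nat.mul_le_mul_right _ (by omega)
    have h5 : (8 * k) * (P t).card ≤ (8 * k) * (P s).card + (4 * k) * (P t).card := by
      rw [hK] at h3
      omega
    have h6 : (4 * k) * (P t).card ≤ (4 * k) * (2 * (P s).card) := by nlinarith
    exact Nat.le_of_mul_le_mul_left h6 (by positivity)
  have h7 : (2 * k) * (P t).card ≤ 2 * ∑ s ∈ Finset.Ioc (t - 2 * k) t, (P s).card := by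
    rw [Finset.mul_sum]
    calc (2 * k) * (P t).card = ∑ s ∈ Finset.Ioc (t - 2 * k) t, (P t).card := by
          rw [Finset.sum_const, Nat.card_Ioc, smul_eq_mul]
          congr 1
          omega
      _ ≤ _ := Finset.sum_le_sum h2
  have h8 : (2 * k) * (P t).card = 2 * (k * (P t).card) := by ring
  omega

end Pool.Agent.Q147.HL
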