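import Mathlib

/-!
# The number of independent monomials
-/

set_option autoImplicit false

namespace Pool.Agent.Q147.HL

open MvPolynomial Module

variable {ι : Type*} {K A : Type*} [Field K] [CommRing A] [Algebra K A]

/-- the span of the values of the monomials in `S` -/
noncomputable def Val (K : Type*) {A : Type*} [Field K] [CommRing A] [Algebra K A] (x : ι → A)
    (S : Set (ι →₀ ℕ)) : Submodule K A :=
  Submodule.span K ((fun m : ι →₀ ℕ => m.prod fun i k => x i ^ k) '' S)

theorem val_eq (x : ι → A) (S : Set (ι →₀ ℕ)) :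
    Val K x S = (restrictSupport K S).map (aeval x : MvPolynomial ι K →ₐ[K] A).toLinearMap := by
  rw [restrictSupport_eq_span, Submodule.map_span, Val]
  congr 1
  ext a
  simp only [Set.mem_image, AlgHom.toLinearMap_apply]
  constructor
  · rintro ⟨m, hm, rfl⟩
    refine ⟨_, ⟨m, hm, rfl⟩, ?_⟩
    rw [aeval_monomial, map_one, one_mul]
  · rintro ⟨_, ⟨m, hm, rfl⟩, rfl⟩
    refine ⟨m, hm, ?_⟩
    rw [aeval_monomial, map_one, one_mul]

theorem finrank_supp (S : Set (ι →₀ ℕ)) : finrank K (restrictSupport K S) = S.ncard := by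
  rw [finrank_eq_nat_card_basis (basisRestrictSupport (R := K) S), Nat.card_coe_set_eq]

theorem finite_supp {S : Set (ι →₀ ℕ)} (hS : S.Finite) :
    FiniteDimensional K (restrictSupport K S) := by
  have : Finite S := hS
  exact (basisRestrictSupport (R := K) S).finiteDimensional_of_finite

theorem mul_mem {S T U : Set (ι →₀ ℕ)} (h : ∀ s ∈ S, ∀ t ∈ T, s + t ∈ U)
    {f g : MvPolynomial ι K} (hf : f ∈ restrictSupport K S) (hg : g ∈ restrictSupport K T) :
    f * g ∈ restrictSupport K U := by
  classical
  rw [mem_restrictSupport_iff] at hf hg ⊢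
  intro m hm
  have h1 := support_mul f g hm
  obtain ⟨a, ha, b, hb, rfl⟩ := Finset.mem_add.1 h1
  exact h a (hf ha) b (hg hb)

/-- one relation produces many relations -/
theorem main (x : ι → A) {S T U : Set (ι →₀ ℕ)} (hU : U.Finite)
    (h : ∀ s ∈ S, ∀ t ∈ T, s + t ∈ U) {f : MvPolynomial ι K} (hf : f ∈ restrictSupport K S)
    (hf0 : f ≠ 0) (hx : aeval x f = 0) :
    finrank K (Val K x U) + T.ncard ≤ U.ncard := by
  classical
  have := finite_supp (K := K) hU
  set φ := (aeval x : MvPolynomial ι K →ₐ[K] A).toLinearMap with hφ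
  set ψ := φ.domRestrict (restrictSupport K U) with hψ
  have h1 : finrank K (LinearMap.range ψ) + finrank K (LinearMap.ker ψ) = U.ncard := by
    rw [LinearMap.finrank_range_add_finrank_ker, finrank_supp]
  have h2 : LinearMap.range ψ = Val K x U := by
    rw [val_eq, ← hφ, hψ, LinearMap.range_domRestrict]
  rw [h2] at h1
  have h3 : T.ncard ≤ finrank K (LinearMap.ker ψ) := by
    rw [← finrank_supp (K := K) T]
    let μ : restrictSupport K T →ₗ[K] restrictSupport K U :=
      { toFun := fun g => ⟨f * g.1, mul_mem h hf g.2⟩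
        map_add' := fun a b => Subtype.ext (mul_add _ _ _)
        map_smul' := fun c a => Subtype.ext (mul_smul_comm _ _ _) }
    have hμ : ∀ g, μ g ∈ LinearMap.ker ψ := fun g => by
      rw [LinearMap.mem_ker, hψ, LinearMap.domRestrict_apply]
      change aeval x (f * g.1) = 0
      rw [map_mul, hx, zero_mul]
    have hinj : Function.Injective (μ.codRestrict (LinearMap.ker ψ) hμ) := by
      intro a b hab
      have h4 : f * a.1 = f * b.1 := congrArg (fun z => z.1.1) hab
      exact Subtype.ext (mul_left_cancel₀ hf0 h4)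
    exact LinearMap.finrank_le_finrank_of_injective hinj
  omega

/-- independent numbers: the number of monomials -/
theorem finrank_val {x : ι → A} (hx : AlgebraicIndependent K x) (U : Set (ι →₀ ℕ)) :
    finrank K (Val K x U) = U.ncard := by
  rw [val_eq, ← finrank_supp (K := K) U]
  refine (LinearEquiv.finrank_eq (Submodule.equivMapOfInjective _ ?_ _)).symm
  exact hx

theorem exists_rel {x : ι → A} (hx : ¬ AlgebraicIndependent K x) :
    ∃ f : MvPolynomial ι K, f ≠ 0 ∧ aeval x f = 0 := by
  rw [algebraicIndependent_iff] at hx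
  push Not at hx
  obtain ⟨f, h1, h2⟩ := hx
  exact ⟨f, h2, h1⟩

theorem mem_supp (f : MvPolynomial ι K) : f ∈ restrictSupport K (f.support : Set (ι →₀ ℕ)) := by
  rw [mem_restrictSupport_iff]

end Pool.Agent.Q147.HL
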