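import Pool.Agent.Q147.HL.Part

/-!
# Integers of given weight are partitions
-/

set_option autoImplicit false

namespace Pool.Agent.Q147.HL

theorem pc_prime {p : ℕ} (hp : p.Prime) : Nat.primeCounting p = Nat.count Nat.Prime p + 1 := by
  rw [Nat.primeCounting, Nat.primeCounting', Nat.count_succ, if_pos hp]

theorem pc_nth {i : ℕ} (hi : 1 ≤ i) : Nat.primeCounting (Nat.nth Nat.Prime (i - 1)) = i := by
  rw [pc_prime (Nat.prime_nth_prime _)]
  have h := Nat.primeCounting'_nth_eq (i - 1)
  rw [Nat.primeCounting'] at h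
  rw [h]
  omega

theorem nth_pc {p : ℕ} (hp : p.Prime) : Nat.nth Nat.Prime (Nat.primeCounting p - 1) = p := by
  rw [pc_prime hp, Nat.add_sub_cancel]
  exact Nat.nth_count hp

/-- the integer of a partition -/
noncomputable def gt {t : ℕ} (l : Nat.Partition t) : ℕ :=
  (l.parts.map fun i => Nat.nth Nat.Prime (i - 1)).prod

theorem gt_factors {t : ℕ} (l : Nat.Partition t) :
    ((gt l).primeFactorsList : Multiset ℕ) = l.parts.map fun i => Nat.nth Nat.Prime (i - 1) := by
  rw [gt]
  generalize hm : (l.parts.map fun i => Nat.nth Nat.Prime (i - 1)) = m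
  have hp : ∀ p ∈ m, p.Prime := by
    intro p hp
    rw [← hm] at hp
    obtain ⟨i, _, rfl⟩ := Multiset.mem_map.1 hp
    exact Nat.prime_nth_prime _
  clear hm
  induction m using Quot.inductionOn with
  | h a =>
    apply Quot.sound
    exact (Nat.primeFactorsList_unique (l := a) (by simp) (fun p h => hp p (by simpa using h))).symm

theorem gt_ne {t : ℕ} (l : Nat.Partition t) : gt l ≠ 0 := by
  rw [gt]
  intro h
  rw [Multiset.prod_eq_zero_iff] at h
  obtain ⟨i, _, h0⟩ := Multiset.mem_map.1 h
  exact (Nat.prime_nth_prime (i - 1)).ne_zero h0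

theorem wt_eq (n : ℕ) : wt n = ((n.primeFactorsList : Multiset ℕ).map Nat.primeCounting).sum := by
  rw [wt, Multiset.map_coe, Multiset.sum_coe]

theorem gt_map {t : ℕ} (l : Nat.Partition t) :
    ((gt l).primeFactorsList : Multiset ℕ).map Nat.primeCounting = l.parts := by
  rw [gt_factors, Multiset.map_map]
  conv_rhs => rw [← Multiset.map_id l.parts]
  apply Multiset.map_congr rfl
  intro i hi
  exact pc_nth (l.parts_pos hi)

theorem wt_gt {t : ℕ} (l : Nat.Partition t) : wt (gt l) = t := by
  rw [wt_eq, gt_map, l.parts_sum]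

theorem gt_inj {t : ℕ} : Function.Injective (gt (t := t)) := by
  intro l l' h
  apply Nat.Partition.ext
  rw [← gt_map l, ← gt_map l', h]

theorem gt_range (t : ℕ) : Set.range (gt (t := t)) = {n : ℕ | n ≠ 0 ∧ wt n = t} := by
  ext n
  constructor
  · rintro ⟨l, rfl⟩
    exact ⟨gt_ne l, wt_gt l⟩
  · rintro ⟨h0, ht⟩
    let l : Nat.Partition t :=
      { parts := (n.primeFactorsList : Multiset ℕ).map Nat.primeCounting
        parts_pos := by
          intro i hi
          obtain ⟨p, hp, rfl⟩ := Multiset.mem_map.1 hi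
          rw [pc_prime (Nat.prime_of_mem_primeFactorsList (by simpa using hp))]
          omega
        parts_sum := by rw [← wt_eq, ht] }
    refine ⟨l, ?_⟩
    rw [gt]
    change (Multiset.map (fun i => Nat.nth Nat.Prime (i - 1))
      ((n.primeFactorsList : Multiset ℕ).map Nat.primeCounting)).prod = n
    rw [Multiset.map_map]
    have h1 : Multiset.map ((fun i => Nat.nth Nat.Prime (i - 1)) ∘ Nat.primeCounting)
        (n.primeFactorsList : Multiset ℕ) = (n.primeFactorsList : Multiset ℕ) := by
      conv_rhs => rw [← Multiset.map_id (n.primeFactorsList : Multiset ℕ)]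
      apply Multiset.map_congr rfl
      intro p hp
      exact nth_pc (Nat.prime_of_mem_primeFactorsList (by simpa using hp))
    rw [h1, Multiset.prod_coe, Nat.prod_primeFactorsList h0]

theorem finite_wt (t : ℕ) : {n : ℕ | n ≠ 0 ∧ wt n = t}.Finite := by
  rw [← gt_range]
  exact Set.finite_range _

theorem card_wt (t : ℕ) : {n : ℕ | n ≠ 0 ∧ wt n = t}.ncard = Fintype.card (Nat.Partition t) := by
  rw [← gt_range, ← Set.image_univ, Set.ncard_image_of_injective _ gt_inj, Set.ncard_univ,
    Nat.card_eq_fintype_card]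

theorem finite_wt_le (t : ℕ) : {n : ℕ | n ≠ 0 ∧ wt n ≤ t}.Finite := by
  have h : {n : ℕ | n ≠ 0 ∧ wt n ≤ t} ⊆ ⋃ s ∈ Finset.range (t + 1), {n : ℕ | n ≠ 0 ∧ wt n = s} := by
    rintro n ⟨h0, h1⟩
    simp only [Set.mem_iUnion]
    exact ⟨wt n, Finset.mem_range.2 (by omega), h0, rfl⟩
  refine Set.Finite.subset ?_ h
  exact Set.Finite.biUnion (Finset.finite_toSet _) fun s _ => finite_wt s

theorem card_wt_le (t : ℕ) : {n : ℕ | n ≠ 0 ∧ wt n ≤ t}.ncard =
    ∑ s ∈ Finset.range (t + 1), Fintype.card (Nat.Partition s) := by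
  induction t with
  | zero =>
    rw [Finset.sum_range_one, ← card_wt]
    congr 1
    ext n
    simp
  | succ t ih =>
    rw [Finset.sum_range_succ, ← ih, ← card_wt]
    rw [← Set.ncard_union_eq _ (finite_wt_le t) (finite_wt (t + 1))]
    · congr 1
      ext n
      simp only [Set.mem_setOf_eq, Set.mem_union]
      constructor
      · rintro ⟨h0, h1⟩
        rcases Nat.lt_or_ge (wt n) (t + 1) with h | h
        · exact Or.inl ⟨h0, by omega⟩
        · exact Or.inr ⟨h0, by omega⟩
      · rintro (⟨h0, h1⟩ | ⟨h0, h1⟩)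
        · exact ⟨h0, by omega⟩
        · exact ⟨h0, by omega⟩
    · rw [Set.disjoint_left]
      rintro n ⟨_, h1⟩ ⟨_, h2⟩
      omega

end Pool.Agent.Q147.HL
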