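import Pool.Agent.Q147.HL.Cnt

/-!
# Zero-one laws for the logarithms of the primes
-/

set_option autoImplicit false

namespace Pool.Agent.Q147.HL

open MvPolynomial Module

variable {K : Type*} [Field K] [Algebra K ℝ]

theorem aeval_lg (f : MvPolynomial Nat.Primes K) :
    aeval lg f = ∑ m ∈ f.support, f.coeff m • L (E m) := by
  rw [aeval_def, eval₂_eq]
  refine Finset.sum_congr rfl fun m _ => ?_
  rw [Algebra.smul_def, L_E]
  rfl

/-- a polynomial relation is a linear relation -/
theorem rel_dep {S : Set ℕ} {f : MvPolynomial Nat.Primes K} (hf : ∀ m ∈ f.support, E m ∈ S)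
    (hf0 : f ≠ 0) (hx : aeval lg f = 0) : ¬ LinearIndepOn K L S := by
  classical
  intro hli
  rw [linearIndepOn_iff'] at hli
  let g : ℕ → K := fun n => if h : ∃ m, E m = n then f.coeff h.choose else 0
  have hg : ∀ m, g (E m) = f.coeff m := by
    intro m
    have h : ∃ m', E m' = E m := ⟨m, rfl⟩
    change (if h : ∃ m', E m' = E m then f.coeff h.choose else 0) = _
    rw [dif_pos h, E_inj h.choose_spec]
  have h1 := hli (f.support.image E) g (by
    intro n hn
    obtain ⟨m, hm, rfl⟩ := Finset.mem_image.1 (Finset.mem_coe.1 hn)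
    exact hf m hm) (by
    rw [Finset.sum_image E_inj.injOn, ← hx, aeval_lg]
    exact Finset.sum_congr rfl fun m _ => by rw [hg])
  apply hf0
  ext m
  rw [coeff_zero]
  by_contra hne
  have hm : m ∈ f.support := mem_support_iff.2 hne
  have h2 := h1 (E m) (Finset.mem_image_of_mem _ hm)
  rw [hg] at h2
  exact hne h2

/-- a linear relation is a polynomial relation -/
theorem dep_rel {S : Set ℕ} (hS : ∀ n ∈ S, n ≠ 0) (h : ¬ LinearIndepOn K L S) :
    ∃ f : MvPolynomial Nat.Primes K, (∀ m ∈ f.support, E m ∈ S) ∧ f ≠ 0 ∧ aeval lg f = 0 := by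
  classical
  rw [linearIndepOn_iff'] at h
  push Not at h
  obtain ⟨t, g, htS, hsum, n, hn, hgn⟩ := h
  have hch : ∀ k : ℕ, ∃ m, k ≠ 0 → E m = k := fun k => by
    rcases eq_or_ne k 0 with rfl | hk
    · exact ⟨0, fun h => absurd rfl h⟩
    · obtain ⟨m, hm⟩ := E_surj hk
      exact ⟨m, fun _ => hm⟩
  choose J hJ using hch
  have hJt : ∀ k ∈ t, E (J k) = k := fun k hk => hJ k (hS k (htS hk))
  let f : MvPolynomial Nat.Primes K := ∑ k ∈ t, monomial (J k) (g k)
  have hcoef : ∀ k ∈ t, f.coeff (J k) = g k := by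
    intro k hk
    change coeff (J k) (∑ l ∈ t, monomial (J l) (g l)) = g k
    rw [coeff_sum, Finset.sum_eq_single k]
    · rw [coeff_monomial, if_pos rfl]
    · intro l hl hlk
      rw [coeff_monomial, if_neg]
      intro hJJ
      apply hlk
      rw [← hJt l hl, ← hJt k hk, hJJ]
    · intro hk'
      exact absurd hk hk'
  refine ⟨f, ?_, ?_, ?_⟩
  · intro m hm
    have h1 : f.support ⊆ t.image J := by
      change (∑ k ∈ t, monomial (J k) (g k)).support ⊆ _
      refine (support_sum).trans ?_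
      intro m hm
      obtain ⟨k, hk, hm⟩ := Finset.mem_biUnion.1 hm
      have := support_monomial_subset hm
      rw [Finset.mem_singleton] at this
      rw [this]
      exact Finset.mem_image_of_mem _ hk
    obtain ⟨k, hk, rfl⟩ := Finset.mem_image.1 (h1 hm)
    rw [hJt k hk]
    exact htS hk
  · intro h0
    have h1 := hcoef n hn
    rw [h0, coeff_zero] at h1
    exact hgn h1.symm
  · change aeval lg (∑ k ∈ t, monomial (J k) (g k)) = 0
    rw [map_sum, ← hsum]
    refine Finset.sum_congr rfl fun k hk => ?_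
    rw [aeval_monomial, Algebra.smul_def]
    congr 1
    conv_rhs => rw [← hJt k hk, L_E]
    rfl

theorem indep_iff : AlgebraicIndependent K lg ↔ LinearIndepOn K L {n | n ≠ 0} := by
  constructor
  · intro h
    by_contra hcon
    obtain ⟨f, _, h0, h1⟩ := dep_rel (fun n hn => hn) hcon
    exact h0 ((algebraicIndependent_iff.1 h) f h1)
  · intro h
    by_contra hcon
    obtain ⟨f, h0, h1⟩ := exists_rel hcon
    exact rel_dep (fun m _ => E_ne m) h0 h1 h

/-- the set `F` contains a dilate of every finite set of positive integers -/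
def Thick (F : Set ℕ) : Prop := ∀ S : Finset ℕ, (∀ s ∈ S, s ≠ 0) → ∃ d, ∀ s ∈ S, d * s ∈ F

theorem thick_law {F : Set ℕ} (hF : ∀ n ∈ F, n ≠ 0) (hT : Thick F) :
    AlgebraicIndependent K lg ↔ LinearIndepOn K L F := by
  classical
  constructor
  · intro h
    exact (indep_iff.1 h).mono fun n hn => hF n hn
  · intro h
    by_contra hcon
    obtain ⟨f, h0, h1⟩ := exists_rel hcon
    obtain ⟨d, hd⟩ := hT (f.support.image E) (by
      intro s hs
      obtain ⟨m, _, rfl⟩ := Finset.mem_image.1 hs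
      exact E_ne m)
    obtain ⟨m1, hm1⟩ : ∃ m, m ∈ f.support := by
      by_contra hno
      push Not at hno
      exact h0 (support_eq_empty.1 (Finset.eq_empty_of_forall_notMem hno))
    have hd0 : d ≠ 0 := by
      rintro rfl
      have := hF _ (hd (E m1) (Finset.mem_image_of_mem _ hm1))
      rw [zero_mul] at this
      exact this rfl
    obtain ⟨m0, rfl⟩ := E_surj hd0
    have h2 : monomial m0 (1 : K) * f ∈ restrictSupport K (Mon F) := by
      refine mul_mem (S := {m0}) (T := (f.support : Set (Nat.Primes →₀ ℕ))) ?_ ?_ (mem_supp f)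
      · rintro s hs t ht
        rw [Set.mem_singleton_iff] at hs
        rw [hs]
        change E (m0 + t) ∈ F
        rw [E_add]
        exact hd _ (Finset.mem_image_of_mem _ (Finset.mem_coe.1 ht))
      · rw [monomial_mem_restrictSupport]
        exact Or.inl rfl
    rw [mem_restrictSupport_iff] at h2
    refine rel_dep (S := F) (f := monomial m0 (1 : K) * f) (fun m hm => h2 hm) ?_ ?_ h
    · refine mul_ne_zero ?_ h0
      rw [Ne, monomial_eq_zero]
      exact one_ne_zero
    · rw [map_mul, h1, mul_zero]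

/-- upper density one -/
def UpperDensityOne (F : Set ℕ) : Prop :=
  ∀ ε : ℝ, 0 < ε → ∀ N₀ : ℕ, ∃ N, N₀ ≤ N ∧ (1 - ε) * N ≤ ((F ∩ Set.Icc 1 N).ncard : ℝ)

theorem thick_of_density {F : Set ℕ} (h : UpperDensityOne F) : Thick F := by
  classical
  intro S hS
  by_contra hcon
  push Not at hcon
  obtain ⟨M, hM1, hM⟩ : ∃ M : ℕ, 1 ≤ M ∧ ∀ s ∈ S, s ≤ M :=
    ⟨S.sup id + 1, by omega, fun s hs => (Finset.le_sup (f := id) hs).trans (by omega)⟩
  have hMR : (1 : ℝ) ≤ M := by exact_mod_cast hM1
  set c : ℝ := (S.card : ℝ) + 1 with hc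
  have hc1 : 1 ≤ c := by
    have : (0 : ℝ) ≤ S.card := by positivity
    linarith
  obtain ⟨N, hN0, hN⟩ := h (1 / (4 * c * M)) (by positivity) (2 * M)
  -- the number of multipliers
  have hcard : N / M ≤ S.card * ((Finset.Icc 1 N).filter (fun n => n ∉ F)).card := by
    have h1 : Finset.Icc 1 (N / M) ⊆ S.biUnion (fun s =>
        (Finset.Icc 1 (N / M)).filter (fun d => d * s ∉ F)) := by
      intro d hd
      obtain ⟨s, hs, hds⟩ := hcon d
      exact Finset.mem_biUnion.2 ⟨s, hs, Finset.mem_filter.2 ⟨hd, hds⟩⟩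
    calc N / M = (Finset.Icc 1 (N / M)).card := by rw [Nat.card_Icc, Nat.add_sub_cancel]
      _ ≤ _ := Finset.card_le_card h1
      _ ≤ ∑ s ∈ S, ((Finset.Icc 1 (N / M)).filter (fun d => d * s ∉ F)).card :=
          Finset.card_biUnion_le
      _ ≤ ∑ s ∈ S, ((Finset.Icc 1 N).filter (fun n => n ∉ F)).card := by
          refine Finset.sum_le_sum fun s hs => ?_
          refine Finset.card_le_card_of_injOn (fun d => d * s) ?_ ?_
          · intro d hd
            have hd := Finset.mem_filter.1 (Finset.mem_coe.1 hd)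
            obtain ⟨hd1, hd2⟩ := Finset.mem_Icc.1 hd.1
            refine Finset.mem_coe.2 (Finset.mem_filter.2 ⟨Finset.mem_Icc.2 ⟨?_, ?_⟩, hd.2⟩)
            · exact Nat.mul_pos hd1 (Nat.pos_of_ne_zero (hS s hs))
            · calc d * s ≤ (N / M) * M := Nat.mul_le_mul hd2 (hM s hs)
                _ ≤ N := Nat.div_mul_le_self N M
          · intro a _ b _ hab
            exact Nat.eq_of_mul_eq_mul_right (Nat.pos_of_ne_zero (hS s hs)) hab
      _ = _ := by rw [Finset.sum_const, smul_eq_mul]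
  have hcomp : ((Finset.Icc 1 N).filter (fun n => n ∉ F)).card + (F ∩ Set.Icc 1 N).ncard = N := by
    have h2 : (F ∩ Set.Icc 1 N).ncard = ((Finset.Icc 1 N).filter (fun n => n ∈ F)).card := by
      rw [← Set.ncard_coe_finset]
      congr 1
      ext n
      rw [Finset.coe_filter, Set.mem_inter_iff]
      change (n ∈ F ∧ (1 ≤ n ∧ n ≤ N)) ↔ (n ∈ Finset.Icc 1 N ∧ n ∈ F)
      rw [Finset.mem_Icc]
      tauto
    rw [h2, add_comm, Finset.card_filter_add_card_filter_not, Nat.card_Icc]
    omega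
  have hcomp' : (((Finset.Icc 1 N).filter (fun n => n ∉ F)).card : ℝ) ≤
      1 / (4 * c * M) * N := by
    have h3 : (((Finset.Icc 1 N).filter (fun n => n ∉ F)).card : ℝ) +
        ((F ∩ Set.Icc 1 N).ncard : ℝ) = N := by exact_mod_cast hcomp
    linarith
  have hNM : (N : ℝ) / (2 * M) ≤ ((N / M : ℕ) : ℝ) := by
    have h4 : N < (N / M + 1) * M := by
      have h41 := Nat.div_add_mod N M
      have h42 := Nat.mod_lt N (show M > 0 by omega)
      nlinarith
    have h5 : 2 ≤ N / M := by
      rw [Nat.le_div_iff_mul_le (by omega)]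
      exact hN0
    have h6 : (N : ℝ) < (((N / M : ℕ) : ℝ) + 1) * M := by exact_mod_cast h4
    have h7 : (2 : ℝ) ≤ ((N / M : ℕ) : ℝ) := by exact_mod_cast h5
    rw [div_le_iff₀ (by positivity)]
    nlinarith
  have hcard' : ((N / M : ℕ) : ℝ) ≤ c * (1 / (4 * c * M) * N) := by
    calc ((N / M : ℕ) : ℝ) ≤ (S.card : ℝ) * (((Finset.Icc 1 N).filter (fun n => n ∉ F)).card : ℝ) := by
          exact_mod_cast hcard
      _ ≤ c * (((Finset.Icc 1 N).filter (fun n => n ∉ F)).card : ℝ) := by
          apply mul_le_mul_of_nonneg_right _ (by positivity)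
          linarith
      _ ≤ _ := by
          apply mul_le_mul_of_nonneg_left hcomp'
          linarith
  have hNpos : (0 : ℝ) < N := by
    have : (2 : ℝ) * M ≤ N := by exact_mod_cast hN0
    linarith
  have h8 : c * (1 / (4 * c * M) * N) = N / (4 * M) := by
    field_simp
  rw [h8] at hcard'
  have h9 : (N : ℝ) / (4 * M) < N / (2 * M) := by
    apply div_lt_div_of_pos_left hNpos (by positivity)
    linarith
  linarith

/-! ### integers up to `N` -/

theorem int_law {b : ℕ} (h : ¬ LinearIndepOn K L {n | 1 ≤ n ∧ n ≤ b}) (N : ℕ) :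
    finrank K (Submodule.span K (L '' {n | 1 ≤ n ∧ n ≤ N})) + N / b ≤ N := by
  have h0 : ∀ (a : ℕ), ∀ n ∈ {n : ℕ | 1 ≤ n ∧ n ≤ a}, n ≠ 0 := fun a n hn => by
    have := hn.1
    omega
  have hfin : ∀ a : ℕ, {n : ℕ | 1 ≤ n ∧ n ≤ a} = Set.Icc 1 a := fun a => rfl
  obtain ⟨f, hf, hf0, hx⟩ := dep_rel (h0 b) h
  have h1 := main_L (S := {n | 1 ≤ n ∧ n ≤ b}) (T := {n | 1 ≤ n ∧ n ≤ N / b})
    (U := {n | 1 ≤ n ∧ n ≤ N}) (by rw [hfin]; exact Set.finite_Icc _ _) (h0 N) (h0 _) (by
      rintro s ⟨hs1, hs2⟩ t ⟨ht1, ht2⟩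
      refine ⟨Nat.mul_pos hs1 ht1, ?_⟩
      calc s * t ≤ b * (N / b) := Nat.mul_le_mul hs2 ht2
        _ ≤ N := Nat.mul_div_le N b) hf hf0 hx
  rw [hfin (N / b), hfin N] at h1
  have hc : ∀ a : ℕ, (Set.Icc 1 a).ncard = a := fun a => by
    rw [← Finset.coe_Icc, Set.ncard_coe_finset, Nat.card_Icc]
    omega
  rw [hc, hc] at h1
  rw [hfin N]
  exact h1

theorem int_full (h : AlgebraicIndependent K lg) (N : ℕ) :
    finrank K (Submodule.span K (L '' {n | 1 ≤ n ∧ n ≤ N})) = N := by
  rw [finrank_L h (fun n hn => by have := hn.1; omega)]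
  change (Set.Icc 1 N).ncard = N
  rw [← Finset.coe_Icc, Set.ncard_coe_finset, Nat.card_Icc]
  omega

/-! ### weights -/

theorem part_mono (s : ℕ) : Fintype.card (Nat.Partition s) ≤ Fintype.card (Nat.Partition (s + 1)) := by
  rw [← card_wt, ← card_wt]
  refine Set.ncard_le_ncard_of_injOn (fun n => 2 * n) ?_ ?_ (finite_wt _)
  · rintro n ⟨h0, h1⟩
    refine ⟨by omega, ?_⟩
    rw [wt_mul (by norm_num) h0, h1]
    have h2 : wt 2 = 1 := by
      have h3 := wt_pow Nat.prime_two 1
      rw [pow_one, one_mul, pc_prime Nat.prime_two] at h3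
      rw [h3]
      decide
    omega
  · intro a _ b _ hab
    have hab : 2 * a = 2 * b := hab
    omega

theorem part_mono' {s t : ℕ} (h : s ≤ t) :
    Fintype.card (Nat.Partition s) ≤ Fintype.card (Nat.Partition t) :=
  monotone_nat_of_le_succ (f := fun s => Fintype.card (Nat.Partition s)) part_mono h

theorem wt_law {b : ℕ} (h : ¬ LinearIndepOn K L {n | n ≠ 0 ∧ wt n ≤ b}) {t : ℕ} (ht : b ≤ t) :
    finrank K (Submodule.span K (L '' {n | n ≠ 0 ∧ wt n ≤ t})) ≤
      ∑ s ∈ Finset.Ioc (t - b) t, Fintype.card (Nat.Partition s) := by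
  obtain ⟨f, hf, hf0, hx⟩ := dep_rel (fun n hn => hn.1) h
  have h1 := main_L (S := {n | n ≠ 0 ∧ wt n ≤ b}) (T := {n | n ≠ 0 ∧ wt n ≤ t - b})
    (U := {n | n ≠ 0 ∧ wt n ≤ t}) (finite_wt_le t) (fun n hn => hn.1) (fun n hn => hn.1) (by
      rintro s ⟨hs1, hs2⟩ u ⟨hu1, hu2⟩
      refine ⟨Nat.mul_ne_zero hs1 hu1, ?_⟩
      rw [wt_mul hs1 hu1]
      omega) hf hf0 hx
  rw [card_wt_le, card_wt_le] at h1
  have h2 : ∑ s ∈ Finset.range (t + 1), Fintype.card (Nat.Partition s) =
      ∑ s ∈ Finset.range (t - b + 1), Fintype.card (Nat.Partition s) +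
        ∑ s ∈ Finset.Ioc (t - b) t, Fintype.card (Nat.Partition s) := by
    rw [← Finset.sum_range_add_sum_Ico _ (show t - b + 1 ≤ t + 1 by omega)]
    congr 1
    apply Finset.sum_congr _ (fun _ _ => rfl)
    ext k
    rw [Finset.mem_Ico, Finset.mem_Ioc]
    omega
  omega

theorem wt_law_all {b : ℕ} (h : ¬ LinearIndepOn K L {n | n ≠ 0 ∧ wt n ≤ b}) (t : ℕ) :
    finrank K (Submodule.span K (L '' {n | n ≠ 0 ∧ wt n ≤ t})) ≤
      b * Fintype.card (Nat.Partition t) := by
  rcases le_or_gt b t with ht | ht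
  · refine (wt_law h ht).trans ?_
    calc ∑ s ∈ Finset.Ioc (t - b) t, Fintype.card (Nat.Partition s)
        ≤ ∑ s ∈ Finset.Ioc (t - b) t, Fintype.card (Nat.Partition t) :=
          Finset.sum_le_sum fun s hs => part_mono' (Finset.mem_Ioc.1 hs).2
      _ = b * Fintype.card (Nat.Partition t) := by
          rw [Finset.sum_const, Nat.card_Ioc, smul_eq_mul]
          congr 1
          omega
  · have h1 : finrank K (Submodule.span K (L '' {n | n ≠ 0 ∧ wt n ≤ t})) ≤
        {n | n ≠ 0 ∧ wt n ≤ t}.ncard := by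
      have hf := finite_wt_le t
      have := hf.fintype
      refine (finrank_span_le_card _).trans ?_
      rw [Set.toFinset_card]
      rw [← Nat.card_eq_fintype_card, Nat.card_coe_set_eq]
      exact Set.ncard_image_le hf
    rw [card_wt_le] at h1
    refine h1.trans ?_
    calc ∑ s ∈ Finset.range (t + 1), Fintype.card (Nat.Partition s)
        ≤ ∑ s ∈ Finset.range (t + 1), Fintype.card (Nat.Partition t) :=
          Finset.sum_le_sum fun s hs => part_mono' (by
            have := Finset.mem_range.1 hs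
            omega)
      _ = (t + 1) * Fintype.card (Nat.Partition t) := by
          rw [Finset.sum_const, Finset.card_range, smul_eq_mul]
      _ ≤ b * Fintype.card (Nat.Partition t) := Nat.mul_le_mul_right _ (by omega)

theorem wt_full (h : AlgebraicIndependent K lg) (t : ℕ) :
    finrank K (Submodule.span K (L '' {n | n ≠ 0 ∧ wt n ≤ t})) =
      ∑ s ∈ Finset.range (t + 1), Fintype.card (Nat.Partition s) := by
  rw [finrank_L h (fun n hn => hn.1), card_wt_le]

/-- a relation has some weight -/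
theorem exists_wt (h : ¬ AlgebraicIndependent K lg) :
    ∃ b, ¬ LinearIndepOn K L {n | n ≠ 0 ∧ wt n ≤ b} := by
  classical
  obtain ⟨f, h0, h1⟩ := exists_rel h
  refine ⟨f.support.sup (fun m => wt (E m)), ?_⟩
  exact rel_dep (fun m hm => ⟨E_ne m, Finset.le_sup (f := fun m => wt (E m)) hm⟩) h0 h1

theorem exists_int (h : ¬ AlgebraicIndependent K lg) :
    ∃ b, ¬ LinearIndepOn K L {n | 1 ≤ n ∧ n ≤ b} := by
  classical
  obtain ⟨f, h0, h1⟩ := exists_rel h
  refine ⟨f.support.sup E, ?_⟩
  exact rel_dep (fun m hm => ⟨Nat.one_le_iff_ne_zero.2 (E_ne m), Finset.le_sup (f := E) hm⟩) h0 h1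

theorem conj_iff : (∀ (m : ℕ) (p : Fin m → ℕ), Function.Injective p → (∀ i, (p i).Prime) →
      AlgebraicIndependent K (fun i : Fin m => Real.log ((p i : ℕ) : ℝ))) ↔
    AlgebraicIndependent K lg := by
  constructor
  · intro h
    apply algebraicIndependent_of_finite_type
    intro t ht
    have := ht.fintype
    let e := Fintype.equivFin t
    have h1 := h (Fintype.card t) (fun i => ((e.symm i : Nat.Primes) : ℕ)) (by
      intro a b hab
      exact e.symm.injective (Subtype.ext (coe_inj hab))) (fun i => (e.symm i : Nat.Primes).2)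
    have h2 := h1.comp e e.injective
    convert h2 using 1
    funext i
    rw [Function.comp_apply]
    simp [lg]
  · intro h m p hp hpp
    have h1 := h.comp (fun i : Fin m => (⟨p i, hpp i⟩ : Nat.Primes)) (by
      intro a b hab
      exact hp (congrArg Subtype.val hab))
    exact h1

end Pool.Agent.Q147.HL
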