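import Pool.Agent.Q147.HL.Primes

/-!
# Partitions and integers
-/

set_option autoImplicit false

namespace Pool.Agent.Q147.HL

open Finset

theorem part_le {s : ℕ} (l : Nat.Partition s) {a : ℕ} (ha : a ∈ l.parts) : a ≤ s := by
  have h := Multiset.single_le_sum (fun x _ => Nat.zero_le x) a ha
  rwa [l.parts_sum] at h

/-- the multiplicities of a partition -/
def mult {s : ℕ} (l : Nat.Partition s) (i : Fin s) : ℕ := l.parts.count ((i : ℕ) + 1)

theorem mult_sum {s : ℕ} (l : Nat.Partition s) : ∑ i : Fin s, ((i : ℕ) + 1) * mult l i = s := by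
  have h1 : l.parts.sum = ∑ a ∈ Finset.Ico 1 (s + 1), l.parts.count a * a := by
    have h := Finset.sum_multiset_count_of_subset l.parts (Finset.Ico 1 (s + 1)) (by
      intro a ha
      have ha := Multiset.mem_toFinset.1 ha
      have h2 := l.parts_pos ha
      have h3 := part_le l ha
      rw [Finset.mem_Ico]
      omega)
    simpa using h
  rw [l.parts_sum, Finset.sum_Ico_eq_sum_range, Nat.add_sub_cancel] at h1
  conv_rhs => rw [h1]
  rw [← Fin.sum_univ_eq_sum_range (fun i => l.parts.count (1 + i) * (1 + i)) s]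
  refine Finset.sum_congr rfl fun i _ => ?_
  rw [mult, add_comm 1, mul_comm]

theorem mult_inj {s : ℕ} : Function.Injective (mult (s := s)) := by
  intro l l' h
  apply Nat.Partition.ext
  apply Multiset.ext.2
  intro a
  rcases Nat.eq_zero_or_pos a with rfl | ha
  · rw [Multiset.count_eq_zero_of_notMem, Multiset.count_eq_zero_of_notMem]
    · intro h0
      exact absurd (l'.parts_pos h0) (lt_irrefl 0)
    · intro h0
      exact absurd (l.parts_pos h0) (lt_irrefl 0)
  · rcases Nat.lt_or_ge s a with hs | hs
    · rw [Multiset.count_eq_zero_of_notMem, Multiset.count_eq_zero_of_notMem]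
      · intro h0
        exact absurd (part_le l' h0) (by omega)
      · intro h0
        exact absurd (part_le l h0) (by omega)
    · have h1 := congrFun h ⟨a - 1, by omega⟩
      unfold mult at h1
      rw [show ((⟨a - 1, by omega⟩ : Fin s) : ℕ) + 1 = a by
        change a - 1 + 1 = a
        omega] at h1
      exact h1

theorem mult_le {s : ℕ} (l : Nat.Partition s) (i : Fin s) : mult l i ≤ s := by
  have h := mult_sum l
  have h1 : ((i : ℕ) + 1) * mult l i ≤ s := by
    conv_rhs => rw [← h]
    exact Finset.single_le_sum (f := fun i : Fin s => ((i : ℕ) + 1) * mult l i)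
      (fun _ _ => Nat.zero_le _) (Finset.mem_univ i)
  nlinarith

theorem part_bound {x : ℝ} (h0 : 0 < x) (h1 : x < 1) (s : ℕ) :
    (Fintype.card (Nat.Partition s) : ℝ) * x ^ s ≤ Real.exp (x / (1 - x) ^ 2) := by
  classical
  have hx : (0 : ℝ) < 1 - x := by linarith
  have e1 : (Fintype.card (Nat.Partition s) : ℝ) * x ^ s =
      ∑ l : Nat.Partition s, ∏ i : Fin s, (x ^ ((i : ℕ) + 1)) ^ mult l i := by
    rw [Finset.sum_congr rfl (g := fun _ => x ^ s)]
    · rw [Finset.sum_const, Finset.card_univ, nsmul_eq_mul]
    · intro l _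
      conv_rhs => rw [← mult_sum l]
      rw [← Finset.prod_pow_eq_pow_sum]
      exact Finset.prod_congr rfl (fun (i : Fin s) _ => (pow_mul x ((i : ℕ) + 1) (mult l i)).symm)
  have e2 : ∑ l : Nat.Partition s, ∏ i : Fin s, (x ^ ((i : ℕ) + 1)) ^ mult l i ≤
      ∑ g ∈ Fintype.piFinset (fun _ : Fin s => Finset.range (s + 1)),
        ∏ i : Fin s, (x ^ ((i : ℕ) + 1)) ^ g i := by
    rw [← Finset.sum_image (s := Finset.univ) (g := mult (s := s))
      (f := fun g : Fin s → ℕ => ∏ i : Fin s, (x ^ ((i : ℕ) + 1)) ^ g i)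
      (mult_inj.injOn)]
    refine Finset.sum_le_sum_of_subset_of_nonneg ?_ ?_
    · intro g hg
      obtain ⟨l, _, rfl⟩ := Finset.mem_image.1 hg
      rw [Fintype.mem_piFinset]
      intro i
      have := mult_le l i
      rw [Finset.mem_range]
      omega
    · intro g _ _
      exact Finset.prod_nonneg fun i _ => by positivity
  have e3 : ∑ g ∈ Fintype.piFinset (fun _ : Fin s => Finset.range (s + 1)),
      ∏ i : Fin s, (x ^ ((i : ℕ) + 1)) ^ g i =
      ∏ i : Fin s, ∑ j ∈ Finset.range (s + 1), (x ^ ((i : ℕ) + 1)) ^ j := by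
    rw [Finset.prod_univ_sum]
  have e4 : ∀ i : Fin s, ∑ j ∈ Finset.range (s + 1), (x ^ ((i : ℕ) + 1)) ^ j ≤
      Real.exp (x ^ ((i : ℕ) + 1) / (1 - x)) := by
    intro i
    set y := x ^ ((i : ℕ) + 1) with hy
    have hy0 : 0 < y := by positivity
    have hy1 : y ≤ x := by
      rw [hy]
      calc x ^ ((i : ℕ) + 1) ≤ x ^ 1 := pow_le_pow_of_le_one h0.le h1.le (by omega)
        _ = x := pow_one x
    have hy2 : 0 < 1 - y := by linarith
    have g1 : ∑ j ∈ Finset.range (s + 1), y ^ j ≤ (1 - y)⁻¹ := by
      have h3 := geom_sum_eq (ne_of_lt (by linarith : y < 1)) (s + 1)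
      rw [h3]
      rw [div_le_iff_of_neg (by linarith)]
      have : (1 - y)⁻¹ * (y - 1) = -1 := by
        field_simp
        ring
      rw [this]
      have : 0 < y ^ (s + 1) := by positivity
      linarith
    have g2 : (1 - y)⁻¹ ≤ y / (1 - x) + 1 := by
      have : (1 - y)⁻¹ = y / (1 - y) + 1 := by
        field_simp
        ring
      rw [this]
      have : y / (1 - y) ≤ y / (1 - x) := by
        apply div_le_div_of_nonneg_left hy0.le hx
        linarith
      linarith
    exact (g1.trans g2).trans (Real.add_one_le_exp _)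
  calc (Fintype.card (Nat.Partition s) : ℝ) * x ^ s
      ≤ ∏ i : Fin s, ∑ j ∈ Finset.range (s + 1), (x ^ ((i : ℕ) + 1)) ^ j := by
        rw [e1, ← e3]
        exact e2
    _ ≤ ∏ i : Fin s, Real.exp (x ^ ((i : ℕ) + 1) / (1 - x)) := by
        refine Finset.prod_le_prod (fun i _ => ?_) (fun i _ => e4 i)
        exact Finset.sum_nonneg fun j _ => by positivity
    _ = Real.exp (∑ i : Fin s, x ^ ((i : ℕ) + 1) / (1 - x)) := (Real.exp_sum _ _).symm
    _ ≤ Real.exp (x / (1 - x) ^ 2) := by
        apply Real.exp_le_exp.2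
        rw [← Finset.sum_div, div_le_div_iff₀ hx (by positivity)]
        have h5 : ∑ i : Fin s, x ^ ((i : ℕ) + 1) ≤ x / (1 - x) := by
          rw [Fin.sum_univ_eq_sum_range (fun i => x ^ (i + 1)) s]
          have h6 : ∑ i ∈ Finset.range s, x ^ (i + 1) = x * ∑ i ∈ Finset.range s, x ^ i := by
            rw [Finset.mul_sum]
            exact Finset.sum_congr rfl fun i _ => by rw [pow_succ]; ring
          rw [h6, geom_sum_eq (ne_of_lt h1), div_eq_mul_inv x]
          apply mul_le_mul_of_nonneg_left _ h0.le
          rw [div_le_iff_of_neg (by linarith)]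
          have : (1 - x)⁻¹ * (x - 1) = -1 := by
            field_simp
            ring
          rw [this]
          have : 0 < x ^ s := by positivity
          linarith
        have h7 : (∑ i : Fin s, x ^ ((i : ℕ) + 1)) * (1 - x) ^ 2 ≤ x / (1 - x) * (1 - x) ^ 2 :=
          mul_le_mul_of_nonneg_right h5 (by positivity)
        have h8 : x / (1 - x) * (1 - x) ^ 2 = x * (1 - x) := by
          field_simp
        linarith

/-- the sums of the partition numbers are not bounded by a multiple of the partition number -/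
theorem unbounded (C : ℝ) : ∃ t : ℕ, C * (Fintype.card (Nat.Partition t) : ℝ) <
    ∑ s ∈ Finset.range (t + 1), (Fintype.card (Nat.Partition s) : ℝ) := by
  by_contra hcon
  push Not at hcon
  have hp : ∀ s : ℕ, (1 : ℝ) ≤ Fintype.card (Nat.Partition s) := fun s => by
    exact_mod_cast Fintype.card_pos
  have hC0 : 1 ≤ C := by
    have h := hcon 0
    have h1 := hp 0
    rw [Finset.sum_range_one] at h
    by_contra hlt
    push Not at hlt
    nlinarith
  set D := C + 1 with hD
  set A : ℕ → ℝ := fun t => ∑ s ∈ Finset.range (t + 1), (Fintype.card (Nat.Partition s) : ℝ) with hA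
  have hrec : ∀ t, A t ≤ (1 - 1 / D) * A (t + 1) := by
    intro t
    have h1 : A (t + 1) = A t + Fintype.card (Nat.Partition (t + 1)) := by
      rw [hA]
      exact Finset.sum_range_succ _ _
    have h2 := hcon (t + 1)
    change A (t + 1) ≤ _ at h2
    have h3 : A (t + 1) ≤ D * Fintype.card (Nat.Partition (t + 1)) := by
      have := hp (t + 1)
      nlinarith
    have hDpos : 0 < D := by linarith
    have h4 : A (t + 1) / D ≤ Fintype.card (Nat.Partition (t + 1)) := by
      rw [div_le_iff₀ hDpos]
      linarith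
    have h5 : (1 - 1 / D) * A (t + 1) = A (t + 1) - A (t + 1) / D := by
      field_simp
    linarith
  have hDpos : 0 < D := by linarith
  set r := 1 - 1 / D with hr
  have hr0 : 0 < r := by
    rw [hr]
    have : 1 / D < 1 := by
      rw [div_lt_one hDpos]
      linarith
    linarith
  have hr1 : r < 1 := by
    have : 0 < 1 / D := by positivity
    linarith
  have hA0 : ∀ t, 1 ≤ r ^ t * A t := by
    intro t
    induction t with
    | zero =>
      rw [pow_zero, one_mul, hA]
      change 1 ≤ ∑ s ∈ Finset.range (0 + 1), _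
      rw [Finset.sum_range_one]
      exact hp 0
    | succ t ih =>
      calc 1 ≤ r ^ t * A t := ih
        _ ≤ r ^ t * (r * A (t + 1)) := by
            apply mul_le_mul_of_nonneg_left (hrec t)
            positivity
        _ = r ^ (t + 1) * A (t + 1) := by ring
  set x := (1 + r) / 2 with hx
  have hx0 : 0 < x := by linarith
  have hx1 : x < 1 := by linarith
  have hrx : 1 < x / r := by
    rw [one_lt_div hr0]
    linarith
  set B := Real.exp (x / (1 - x) ^ 2) with hB
  obtain ⟨t, ht⟩ := pow_unbounded_of_one_lt (C * B) hrx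
  have h1 := hcon t
  change A t ≤ _ at h1
  have h2 := part_bound hx0 hx1 t
  have h3 := hA0 t
  have h4 : A t * x ^ t ≤ C * B := by
    calc A t * x ^ t ≤ (C * Fintype.card (Nat.Partition t)) * x ^ t := by
          apply mul_le_mul_of_nonneg_right h1
          positivity
      _ = C * (Fintype.card (Nat.Partition t) * x ^ t) := by ring
      _ ≤ C * B := by
          apply mul_le_mul_of_nonneg_left h2
          linarith
  have h5 : (x / r) ^ t ≤ A t * x ^ t := by
    rw [div_pow, div_le_iff₀ (by positivity)]
    have : 0 < x ^ t := by positivity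
    nlinarith
  linarith

end Pool.Agent.Q147.HL
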