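import Pool.Agent.Q147.HL.Base

/-!
# Monomials in the logarithms of the primes and integers
-/

set_option autoImplicit false

namespace Pool.Agent.Q147.HL

open MvPolynomial Module

/-- the product of the logarithms of the prime factors of `n`, with multiplicity -/
noncomputable def L (n : ℕ) : ℝ := (n.primeFactorsList.map fun p : ℕ => Real.log (p : ℝ)).prod

/-- the sum of the indices of the prime factors of `n`, with multiplicity (`2` has index `1`) -/
def wt (n : ℕ) : ℕ := (n.primeFactorsList.map Nat.primeCounting).sum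

theorem L_one : L 1 = 1 := by simp [L]

theorem L_mul {a b : ℕ} (ha : a ≠ 0) (hb : b ≠ 0) : L (a * b) = L a * L b := by
  unfold L
  rw [← List.prod_append, ← List.map_append]
  exact ((Nat.perm_primeFactorsList_mul ha hb).map _).prod_eq

theorem wt_one : wt 1 = 0 := by simp [wt]

theorem wt_mul {a b : ℕ} (ha : a ≠ 0) (hb : b ≠ 0) : wt (a * b) = wt a + wt b := by
  unfold wt
  rw [← List.sum_append, ← List.map_append]
  exact ((Nat.perm_primeFactorsList_mul ha hb).map _).sum_eq

theorem L_pow {p : ℕ} (hp : p.Prime) (k : ℕ) : L (p ^ k) = Real.log p ^ k := by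
  rw [L, hp.primeFactorsList_pow, List.map_replicate, List.prod_replicate]

theorem wt_pow {p : ℕ} (hp : p.Prime) (k : ℕ) : wt (p ^ k) = k * Nat.primeCounting p := by
  rw [wt, hp.primeFactorsList_pow, List.map_replicate, List.sum_replicate, smul_eq_mul]

theorem L_pos {n : ℕ} : 0 < L n := by
  rw [L]
  apply List.prod_pos
  intro a ha
  obtain ⟨p, hp, rfl⟩ := List.mem_map.1 ha
  exact Real.log_pos (by exact_mod_cast (Nat.prime_of_mem_primeFactorsList hp).one_lt)

/-- the integer of a monomial -/
def E (m : Nat.Primes →₀ ℕ) : ℕ := m.prod fun p k => (p : ℕ) ^ k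

theorem E_zero : E 0 = 1 := by simp [E]

theorem E_add (a b : Nat.Primes →₀ ℕ) : E (a + b) = E a * E b := by
  rw [E, Finsupp.prod_add_index']
  · rfl
  · intro i
    simp
  · intro i k l
    rw [pow_add]

theorem E_single (p : Nat.Primes) (k : ℕ) : E (Finsupp.single p k) = (p : ℕ) ^ k := by
  rw [E, Finsupp.prod_single_index]
  simp

theorem E_ne (m : Nat.Primes →₀ ℕ) : E m ≠ 0 := by
  rw [E, Finsupp.prod, Finset.prod_ne_zero_iff]
  intro p _
  exact pow_ne_zero _ p.2.ne_zero

theorem coe_inj : Function.Injective (fun p : Nat.Primes => (p : ℕ)) := fun _ _ h => Subtype.ext h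

theorem E_factorization (m : Nat.Primes →₀ ℕ) :
    (E m).factorization = m.mapDomain (fun p : Nat.Primes => (p : ℕ)) := by
  have h : E m = (m.mapDomain (fun p : Nat.Primes => (p : ℕ))).prod fun p k => p ^ k := by
    rw [E, Finsupp.prod_mapDomain_index_inj coe_inj]
  rw [h]
  apply Nat.prod_pow_factorization_eq_self
  intro p hp
  have h1 := Finsupp.mapDomain_support hp
  obtain ⟨q, _, rfl⟩ := Finset.mem_image.1 h1
  exact q.2

theorem E_inj : Function.Injective E := by
  intro a b hab
  have h1 : (E a).factorization = (E b).factorization := by rw [hab]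
  rw [E_factorization, E_factorization] at h1
  exact Finsupp.mapDomain_injective coe_inj h1

theorem E_surj {n : ℕ} (hn : n ≠ 0) : ∃ m, E m = n := by
  refine ⟨n.factorization.comapDomain (fun p : Nat.Primes => (p : ℕ)) coe_inj.injOn, ?_⟩
  apply Nat.eq_of_factorization_eq (E_ne _) hn
  intro p
  rw [E_factorization, Finsupp.mapDomain_comapDomain _ coe_inj]
  intro q hq
  exact ⟨⟨q, Nat.prime_of_mem_primeFactors (by simpa using hq)⟩, rfl⟩

theorem L_E (m : Nat.Primes →₀ ℕ) :
    L (E m) = m.prod fun p k => Real.log (p : ℕ) ^ k := by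
  induction m using Finsupp.induction_linear with
  | zero => rw [E_zero, L_one, Finsupp.prod_zero_index]
  | add a b ha hb =>
    rw [E_add, L_mul (E_ne _) (E_ne _), ha, hb, Finsupp.prod_add_index']
    · intro i
      simp
    · intro i k l
      rw [pow_add]
  | single p k =>
    rw [E_single, L_pow p.2, Finsupp.prod_single_index]
    simp

/-- the logarithms of the primes -/
noncomputable def lg (p : Nat.Primes) : ℝ := Real.log (p : ℕ)

variable {K : Type*} [Field K] [Algebra K ℝ]

/-- the monomials of a set of integers -/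
def Mon (N : Set ℕ) : Set (Nat.Primes →₀ ℕ) := E ⁻¹' N

theorem image_Mon {N : Set ℕ} (hN : ∀ n ∈ N, n ≠ 0) : E '' Mon N = N := by
  ext n
  constructor
  · rintro ⟨m, hm, rfl⟩
    exact hm
  · intro hn
    obtain ⟨m, rfl⟩ := E_surj (hN n hn)
    exact ⟨m, hn, rfl⟩

theorem finite_Mon {N : Set ℕ} (hf : N.Finite) : (Mon N).Finite :=
  hf.preimage E_inj.injOn

theorem ncard_Mon {N : Set ℕ} (hN : ∀ n ∈ N, n ≠ 0) : (Mon N).ncard = N.ncard := by
  conv_rhs => rw [← image_Mon hN]
  rw [Set.ncard_image_of_injective _ E_inj]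

theorem Val_Mon {N : Set ℕ} (hN : ∀ n ∈ N, n ≠ 0) :
    Val K lg (Mon N) = Submodule.span K (L '' N) := by
  rw [Val]
  congr 1
  conv_rhs => rw [← image_Mon hN]
  rw [Set.image_image]
  apply Set.image_congr
  intro m _
  rw [L_E]
  rfl

/-- one relation produces many relations -/
theorem main_L {S T U : Set ℕ} (hU : U.Finite) (hU0 : ∀ n ∈ U, n ≠ 0) (hT0 : ∀ n ∈ T, n ≠ 0)
    (h : ∀ s ∈ S, ∀ t ∈ T, s * t ∈ U) {f : MvPolynomial Nat.Primes K}
    (hf : ∀ m ∈ f.support, E m ∈ S)
    (hf0 : f ≠ 0) (hx : aeval lg f = 0) :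
    finrank K (Submodule.span K (L '' U)) + T.ncard ≤ U.ncard := by
  rw [← Val_Mon hU0, ← ncard_Mon hU0, ← ncard_Mon hT0]
  refine main lg (S := Mon S) (finite_Mon hU) ?_ ?_ hf0 hx
  · intro s hs t ht
    change E (s + t) ∈ U
    rw [E_add]
    exact h _ hs _ ht
  · rw [mem_restrictSupport_iff]
    intro m hm
    exact hf m hm

theorem finrank_L (hx : AlgebraicIndependent K lg) {U : Set ℕ} (hU0 : ∀ n ∈ U, n ≠ 0) :
    finrank K (Submodule.span K (L '' U)) = U.ncard := by
  rw [← Val_Mon hU0, ← ncard_Mon hU0, finrank_val hx]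

end Pool.Agent.Q147.HL
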